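import Pool.Agent.Helper61.P3.St1
import Pool.Agent.Helper99.RG.Tl

/-!
# Project P3, module VAR: the variance of a sum of ridge functions
-/

set_option autoImplicit false

open MeasureTheory Set Filter Topology
open scoped ENNReal RealInnerProductSpace

namespace Pool.Agent.Helper65.P3

open Pool.Agent.Helper61.P3 Pool.Agent.Helper20.RG Pool.Agent.Helper20.EQ
open Pool.Agent.Helper68.LM (Pl BB Bd Av HL ft fm DQ)
open Pool.Agent.Helper68.EP (elt GapP)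
open Pool.Agent.Helper99.RG (cut_nonneg cut_le_one cut_zero cut_meas pr_meas)

theorem int_cut (hPT : StPT) (z : Pl) {L₂ : ℝ} (hL : 0 < L₂) {f : Pl → ℝ} (hf : Measurable f)
    {M : ℝ} (hM : ∀ y, |f y| ≤ M) : Integrable (fun y => cut z L₂ y * f y) := by
  obtain ⟨-, -, -, -, -, -, -, hsq⟩ := hPT
  obtain ⟨hm, hv⟩ := hsq z (2 * L₂) (by positivity)
  have h1 : IntegrableOn (fun y => cut z L₂ y * f y) (Sq z (2 * L₂)) volume := by
    refine Measure.integrableOn_of_bounded (M := M) (by rw [hv]; exact ENNReal.ofReal_ne_top)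
      ((cut_meas z L₂).mul hf).aestronglyMeasurable (ae_of_all _ fun y => ?_)
    rw [Real.norm_eq_abs, abs_mul, abs_of_nonneg (cut_nonneg z L₂ y)]
    calc cut z L₂ y * |f y| ≤ 1 * |f y| :=
          mul_le_mul_of_nonneg_right (cut_le_one z L₂ y) (abs_nonneg _)
      _ ≤ M := by rw [one_mul]; exact hM y
  rw [← integrableOn_univ]
  refine h1.of_forall_sdiff_eq_zero MeasurableSet.univ ?_
  rintro y ⟨-, hy⟩
  have : 2 * L₂ < |y 0 - z 0| ∨ 2 * L₂ < |y 1 - z 1| := by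
    by_contra hcon
    push Not at hcon
    exact hy hcon
  rw [cut_zero z L₂ hL y this, zero_mul]

theorem lint_Icc {f : ℝ → ℝ} (hf : Measurable f) {M : ℝ} (h0 : ∀ t, 0 ≤ f t) (hM : ∀ t, f t ≤ M)
    (a b : ℝ) : ∫⁻ t in Icc a b, ENNReal.ofReal (f t) = ENNReal.ofReal (∫ t in Icc a b, f t) := by
  rw [ofReal_integral_eq_lintegral_ofReal]
  · refine Measure.integrableOn_of_bounded (M := M)
      (by rw [Real.volume_Icc]; exact ENNReal.ofReal_ne_top) hf.aestronglyMeasurable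
      (ae_of_all _ fun t => ?_)
    rw [Real.norm_eq_abs, abs_of_nonneg (h0 t)]
    exact hM t
  · exact ae_of_all _ h0

/-- properties of the number `Aa` -/
theorem Aa_prop {s s' : ℝ} {i : ℕ} (h0 : 0 < |s - s'|)
    (h1 : |s - s'| ≤ (2 : ℝ) ^ (-(i : ℤ))) :
    (2 : ℝ) ^ (-(Aa s s' : ℤ)) ≤ |s - s'| ∧ |s - s'| < (2 : ℝ) ^ (1 - (Aa s s' : ℤ)) ∧
      i ≤ Aa s s' := by
  set d := |s - s'| with hd
  have hlog : (i : ℝ) ≤ -(Real.logb 2 d) := by
    have h2 : Real.logb 2 d ≤ Real.logb 2 ((2 : ℝ) ^ (-(i : ℤ))) :=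
      Real.logb_le_logb_of_le (by norm_num) h0 h1
    have h3 : Real.logb 2 ((2 : ℝ) ^ (-(i : ℤ))) = -(i : ℝ) := by
      rw [← Real.rpow_intCast, Real.logb_rpow (by norm_num) (by norm_num)]
      push_cast
      ring
    rw [h3] at h2
    linarith
  have hA : Aa s s' = ⌈-(Real.logb 2 d)⌉₊ := rfl
  have h4 : -(Real.logb 2 d) ≤ (Aa s s' : ℝ) := by
    rw [hA]
    exact Nat.le_ceil _
  have h5 : (Aa s s' : ℝ) < -(Real.logb 2 d) + 1 := by
    rw [hA]
    exact Nat.ceil_lt_add_one (by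
      have : (0 : ℝ) ≤ i := Nat.cast_nonneg i
      linarith)
  refine ⟨?_, ?_, ?_⟩
  · have h6 : (2 : ℝ) ^ (-(Aa s s' : ℤ)) = (2 : ℝ) ^ (-(Aa s s' : ℝ)) := by
      rw [← Real.rpow_intCast]
      push_cast
      rfl
    rw [h6, ← Real.le_logb_iff_rpow_le (by norm_num) h0]
    linarith
  · have h6 : (2 : ℝ) ^ (1 - (Aa s s' : ℤ)) = (2 : ℝ) ^ (1 - (Aa s s' : ℝ)) := by
      rw [← Real.rpow_intCast]
      push_cast
      rfl
    rw [h6, ← Real.logb_lt_iff_lt_rpow (by norm_num) h0]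
    linarith
  · have : (i : ℝ) ≤ (Aa s s' : ℝ) := hlog.trans h4
    exact_mod_cast this

theorem ncard_eq (N : ℕ) (s : ℕ → ℝ) (j : ℕ) (δ : ℝ) :
    {j' : ℕ | j' < N ∧ |s j - s j'| ≤ δ}.ncard =
      ((Finset.range N).filter fun j' => |s j - s j'| ≤ δ).card := by
  rw [← Set.ncard_coe_finset]
  congr 1
  ext j'
  simp

/-- the data of one ridge function -/
structure Da (s : ℝ) (κ : ℤ → ℝ) (h : ℝ → ℝ) : Prop where
  hs : |s| ≤ 1
  gr : Gr κ
  m : Measurable h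
  b : ∀ t, 0 ≤ h t ∧ h t ≤ 2

noncomputable def Vv (s : ℝ) (z : Pl) (L₂ : ℝ) (h : ℝ → ℝ) : ℝ :=
  ∫ t in Icc (pr s z - 6 * L₂) (pr s z + 6 * L₂), h t

noncomputable def Qv (s : ℝ) (κ : ℤ → ℝ) (z : Pl) (L₂ : ℝ) (h : ℝ → ℝ) (b ℓ : ℤ) : ℝ :=
  ∫ t in Icc (pr s z - 5 * L₂) (pr s z + 5 * L₂), (Ed κ b h t - Ed κ ℓ h t) ^ 2

noncomputable def ev (s : ℝ) (κ : ℤ → ℝ) (z : Pl) (L₂ : ℝ) (h : ℝ → ℝ) (b ℓ : ℤ) : ℝ :=
  ∫ y : Pl, cut z L₂ y * (Ed κ b h (pr s y) - Ed κ ℓ h (pr s y)) ^ 2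

section

variable {s s' : ℝ} {κ κ' : ℤ → ℝ} {h h' : ℝ → ℝ} {z : Pl} {L₂ : ℝ}

theorem Ed_m (hGA : StGA) (D : Da s κ h) (b : ℤ) : Measurable (Ed κ b h) :=
  (hGA κ D.gr h 2 b D.m fun t => by
    rw [abs_of_nonneg (D.b t).1]; exact (D.b t).2).1

theorem Ed_0 (hGA : StGA) (D : Da s κ h) (b : ℤ) (t : ℝ) : 0 ≤ Ed κ b h t :=
  (hGA κ D.gr h 2 b D.m fun t => by
    rw [abs_of_nonneg (D.b t).1]; exact (D.b t).2).2.2.2.1 (fun t => (D.b t).1) t

theorem Ed_2 (hGA : StGA) (D : Da s κ h) (b : ℤ) (t : ℝ) : Ed κ b h t ≤ 2 :=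
  (le_abs_self _).trans ((hGA κ D.gr h 2 b D.m fun t => by
    rw [abs_of_nonneg (D.b t).1]; exact (D.b t).2).2.1 t)

theorem Vv_0 (D : Da s κ h) : 0 ≤ Vv s z L₂ h :=
  integral_nonneg fun t => (D.b t).1

theorem Qv_0 (b ℓ : ℤ) : 0 ≤ Qv s κ z L₂ h b ℓ :=
  integral_nonneg fun _ => sq_nonneg _

theorem lVv (D : Da s κ h) : ∫⁻ t in Icc (pr s z - 6 * L₂) (pr s z + 6 * L₂),
    ENNReal.ofReal (h t) = ENNReal.ofReal (Vv s z L₂ h) :=
  lint_Icc D.m (fun t => (D.b t).1) (fun t => (D.b t).2) _ _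

theorem sq_le_4 {x y : ℝ} (hx : 0 ≤ x) (hx2 : x ≤ 2) (hy : 0 ≤ y) (hy2 : y ≤ 2) :
    (x - y) ^ 2 ≤ 4 := by nlinarith

theorem lEd (hGA : StGA) (D : Da s κ h) (b ℓ : ℤ) (x y : ℝ) :
    ∫⁻ t in Icc x y, ENNReal.ofReal ((Ed κ b h t - Ed κ ℓ h t) ^ 2) =
      ENNReal.ofReal (∫ t in Icc x y, (Ed κ b h t - Ed κ ℓ h t) ^ 2) :=
  lint_Icc (((Ed_m hGA D b).sub (Ed_m hGA D ℓ)).pow_const 2) (fun _ => sq_nonneg _)
    (fun t => sq_le_4 (Ed_0 hGA D b t) (Ed_2 hGA D b t) (Ed_0 hGA D ℓ t) (Ed_2 hGA D ℓ t)) _ _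

theorem lHd (hGA : StGA) (D : Da s κ h) (ℓ : ℤ) (x y : ℝ) :
    ∫⁻ t in Icc x y, ENNReal.ofReal ((h t - Ed κ ℓ h t) ^ 2) =
      ENNReal.ofReal (∫ t in Icc x y, (h t - Ed κ ℓ h t) ^ 2) :=
  lint_Icc ((D.m.sub (Ed_m hGA D ℓ)).pow_const 2) (fun _ => sq_nonneg _)
    (fun t => sq_le_4 (D.b t).1 (D.b t).2 (Ed_0 hGA D ℓ t) (Ed_2 hGA D ℓ t)) _ _

/-- the first clause of SMB for real integrals -/
theorem smb1 (hPT : StPT) (hSMB : StSMB) (hs : |s| ≤ 1) (hL : 0 < L₂) {K : ℝ → ℝ}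
    (hK : Measurable K) (hK2 : ∀ t, K t ^ 2 ≤ 4) :
    ∫ y : Pl, cut z L₂ y * K (pr s y) ^ 2 ≤
      4 * L₂ * ∫ t in Icc (pr s z - 4 * L₂) (pr s z + 4 * L₂), K t ^ 2 := by
  have h1 := hSMB.1 s L₂ z K hs hL hK
  rw [lint_Icc (hK.pow_const 2) (fun _ => sq_nonneg _) hK2, ← ENNReal.ofReal_mul (by positivity),
    ← ofReal_integral_eq_lintegral_ofReal] at h1
  · refine (ENNReal.ofReal_le_ofReal_iff ?_).1 h1
    have : 0 ≤ ∫ t in Icc (pr s z - 4 * L₂) (pr s z + 4 * L₂), K t ^ 2 :=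
      integral_nonneg fun _ => sq_nonneg _
    positivity
  · refine int_cut hPT z hL (M := 4) ((hK.comp (pr_meas s)).pow_const 2) fun y => ?_
    rw [abs_of_nonneg (sq_nonneg _)]
    exact hK2 _
  · exact ae_of_all _ fun y => mul_nonneg (cut_nonneg z L₂ y) (sq_nonneg _)

theorem ev_le (hPT : StPT) (hGA : StGA) (hSMB : StSMB) (D : Da s κ h) (hL : 0 < L₂) {a a' ℓ : ℤ}
    (h1 : a ≤ a') (h2 : a' ≤ ℓ) (h3 : (2 : ℝ) ^ ℓ ≤ L₂) :
    ev s κ z L₂ h a' ℓ ≤ 4 * L₂ * Qv s κ z L₂ h a ℓ := by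
  refine (smb1 (K := fun t => Ed κ a' h t - Ed κ ℓ h t) hPT hSMB D.hs hL
    ((Ed_m hGA D a').sub (Ed_m hGA D ℓ)) fun t => sq_le_4 (Ed_0 hGA D a' t) (Ed_2 hGA D a' t)
      (Ed_0 hGA D ℓ t) (Ed_2 hGA D ℓ t)).trans ?_
  refine mul_le_mul_of_nonneg_left ?_ (by positivity)
  have h4 := (hSMB.2 κ h (pr s z) L₂ a a' ℓ D.gr D.m D.b h1 h2 h3).1
  rw [lEd hGA D, lEd hGA D] at h4
  exact (ENNReal.ofReal_le_ofReal_iff (Qv_0 a ℓ)).1 h4

theorem Qv_le (hGA : StGA) (hSMB : StSMB) (D : Da s κ h) {a ℓ : ℤ}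
    (h1 : a ≤ ℓ) (h3 : (2 : ℝ) ^ ℓ ≤ L₂) : Qv s κ z L₂ h a ℓ ≤ 4 * Vv s z L₂ h := by
  have h4 := (hSMB.2 κ h (pr s z) L₂ a a ℓ D.gr D.m D.b le_rfl h1 h3).2.1
  rw [lEd hGA D, lVv D, show (4 : ℝ≥0∞) = ENNReal.ofReal 4 by simp,
    ← ENNReal.ofReal_mul (by norm_num)] at h4
  exact (ENNReal.ofReal_le_ofReal_iff (by
    have := Vv_0 (z := z) (L₂ := L₂) D
    positivity)).1 h4

theorem ev_le' (hPT : StPT) (hGA : StGA) (hSMB : StSMB) (D : Da s κ h) (hL : 0 < L₂) {a ℓ : ℤ}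
    (h2 : a ≤ ℓ) (h3 : (2 : ℝ) ^ ℓ ≤ L₂) :
    ev s κ z L₂ h a ℓ ≤ 16 * L₂ * Vv s z L₂ h := by
  refine (ev_le hPT hGA hSMB D hL le_rfl h2 h3).trans ?_
  have := Qv_le (z := z) hGA hSMB D h2 h3
  calc 4 * L₂ * Qv s κ z L₂ h a ℓ ≤ 4 * L₂ * (4 * Vv s z L₂ h) :=
        mul_le_mul_of_nonneg_left this (by positivity)
    _ = 16 * L₂ * Vv s z L₂ h := by ring

theorem hh_le (hPT : StPT) (hGA : StGA) (hSMB : StSMB) (D : Da s κ h) (hL : 0 < L₂) {ℓ : ℤ}
    (h3 : (2 : ℝ) ^ ℓ ≤ L₂) :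
    ∫ y : Pl, cut z L₂ y * (h (pr s y) - Ed κ ℓ h (pr s y)) ^ 2 ≤ 16 * L₂ * Vv s z L₂ h := by
  refine (smb1 (K := fun t => h t - Ed κ ℓ h t) hPT hSMB D.hs hL
    (D.m.sub (Ed_m hGA D ℓ)) fun t => sq_le_4 (D.b t).1 (D.b t).2
      (Ed_0 hGA D ℓ t) (Ed_2 hGA D ℓ t)).trans ?_
  have h4 := (hSMB.2 κ h (pr s z) L₂ ℓ ℓ ℓ D.gr D.m D.b le_rfl le_rfl h3).2.2
  rw [lHd hGA D, lVv D, show (4 : ℝ≥0∞) = ENNReal.ofReal 4 by simp,
    ← ENNReal.ofReal_mul (by norm_num)] at h4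
  have h5 := (ENNReal.ofReal_le_ofReal_iff (by
    have := Vv_0 (z := z) (L₂ := L₂) D
    positivity)).1 h4
  calc 4 * L₂ * ∫ t in Icc (pr s z - 4 * L₂) (pr s z + 4 * L₂), (h t - Ed κ ℓ h t) ^ 2
      ≤ 4 * L₂ * (4 * Vv s z L₂ h) := mul_le_mul_of_nonneg_left h5 (by positivity)
    _ = 16 * L₂ * Vv s z L₂ h := by ring

theorem abs_sub_2 {x y : ℝ} (hx : 0 ≤ x) (hx2 : x ≤ 2) (hy : 0 ≤ y) (hy2 : y ≤ 2) :
    |x - y| ≤ 2 := by
  rw [abs_le]
  constructor <;> linarith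

/-- measurability and boundedness of products of differences -/
theorem int_prod (hPT : StPT) (hL : 0 < L₂) {X Y : ℝ → ℝ} (hX : Measurable X) (hY : Measurable Y)
    (hX2 : ∀ t, |X t| ≤ 2) (hY2 : ∀ t, |Y t| ≤ 2) :
    Integrable fun y : Pl => cut z L₂ y * (X (pr s y) * Y (pr s' y)) := by
  refine int_cut hPT z hL (M := 4) ((hX.comp (pr_meas s)).mul (hY.comp (pr_meas s'))) fun y => ?_
  rw [abs_mul]
  calc |X (pr s y)| * |Y (pr s' y)| ≤ 2 * 2 :=
        mul_le_mul (hX2 _) (hY2 _) (abs_nonneg _) (by norm_num)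
    _ = 4 := by norm_num

theorem prod_half (hPT : StPT) (hL : 0 < L₂) {X Y : ℝ → ℝ} (hX : Measurable X) (hY : Measurable Y)
    (hX2 : ∀ t, |X t| ≤ 2) (hY2 : ∀ t, |Y t| ≤ 2) :
    ∫ y : Pl, cut z L₂ y * (X (pr s y) * Y (pr s' y)) ≤
      1 / 2 * ((∫ y : Pl, cut z L₂ y * X (pr s y) ^ 2) + ∫ y : Pl, cut z L₂ y * Y (pr s' y) ^ 2) := by
  have hI1 : Integrable fun y : Pl => cut z L₂ y * X (pr s y) ^ 2 := by
    have := int_prod (s := s) (s' := s) (z := z) hPT hL hX hX hX2 hX2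
    refine this.congr (ae_of_all _ fun y => ?_)
    simp only [pow_two]
  have hI2 : Integrable fun y : Pl => cut z L₂ y * Y (pr s' y) ^ 2 := by
    have := int_prod (s := s') (s' := s') (z := z) hPT hL hY hY hY2 hY2
    refine this.congr (ae_of_all _ fun y => ?_)
    simp only [pow_two]
  rw [← integral_add hI1 hI2, ← integral_const_mul]
  refine integral_mono (int_prod hPT hL hX hY hX2 hY2) ((hI1.add hI2).const_mul _) fun y => ?_
  have h1 := cut_nonneg z L₂ y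
  have h2 : 0 ≤ cut z L₂ y * (X (pr s y) - Y (pr s' y)) ^ 2 := mul_nonneg h1 (sq_nonneg _)
  simp only
  nlinarith

/-- pairs of separated slopes -/
theorem far (hSMA : StSMA) (D : Da s κ h) (hs' : |s'| ≤ 1) (hL : 0 < L₂) {a : ℤ}
    {K : ℝ → ℝ} (hK : Measurable K) (hK2 : ∀ t, |K t| ≤ 2) (h1 : (2 : ℝ) ^ a ≤ L₂ * |s - s'|) :
    ∫ y : Pl, cut z L₂ y * ((h (pr s y) - Ed κ a h (pr s y)) * K (pr s' y)) ≤
      100 * ((2 : ℝ) ^ a / |s - s'|) * Vv s z L₂ h :=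
  (le_abs_self _).trans (hSMA s s' κ a z L₂ h K D.hs hs' D.gr hL h1 D.m D.b hK
    (fun t => (hK2 t).trans (by norm_num)))

/-- pairs of near slopes -/
theorem near (hPT : StPT) (hGA : StGA) (hSMA : StSMA) (D : Da s κ h) (D' : Da s' κ' h')
    (hL : 0 < L₂) {k ℓ : ℤ} {i₀ : ℕ} (hk : (2 : ℝ) ^ k ≤ L₂) (h0 : 0 < |s - s'|)
    (h1 : |s - s'| ≤ (2 : ℝ) ^ (-(i₀ : ℤ))) :
    ∫ y : Pl, cut z L₂ y * ((h (pr s y) - Ed κ ℓ h (pr s y)) *
        (h' (pr s' y) - Ed κ' ℓ h' (pr s' y))) ≤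
      100 * (2 : ℝ) ^ k * Vv s z L₂ h + 100 * (2 : ℝ) ^ k * Vv s' z L₂ h' +
        1 / 2 * (ev s κ z L₂ h (k - (Aa s s' : ℤ)) ℓ + ev s' κ' z L₂ h' (k - (Aa s s' : ℤ)) ℓ) := by
  obtain ⟨hA1, -, -⟩ := Aa_prop h0 h1
  set a : ℤ := k - (Aa s s' : ℤ) with ha
  have h2a : (2 : ℝ) ^ a ≤ (2 : ℝ) ^ k * |s - s'| := by
    rw [ha, sub_eq_add_neg, zpow_add₀ (by norm_num)]
    exact mul_le_mul_of_nonneg_left hA1 (by positivity)
  have h2a' : (2 : ℝ) ^ a ≤ L₂ * |s - s'| :=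
    h2a.trans (mul_le_mul_of_nonneg_right hk (abs_nonneg _))
  have hq : (2 : ℝ) ^ a / |s - s'| ≤ (2 : ℝ) ^ k := by
    rw [div_le_iff₀ h0]
    exact h2a
  have mE : ∀ b, Measurable (Ed κ b h) := fun b => Ed_m hGA D b
  have mE' : ∀ b, Measurable (Ed κ' b h') := fun b => Ed_m hGA D' b
  have b1 : ∀ t, |h t - Ed κ a h t| ≤ 2 := fun t =>
    abs_sub_2 (D.b t).1 (D.b t).2 (Ed_0 hGA D a t) (Ed_2 hGA D a t)
  have b1' : ∀ t, |h' t - Ed κ' a h' t| ≤ 2 := fun t =>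
    abs_sub_2 (D'.b t).1 (D'.b t).2 (Ed_0 hGA D' a t) (Ed_2 hGA D' a t)
  have b2' : ∀ t, |h' t - Ed κ' ℓ h' t| ≤ 2 := fun t =>
    abs_sub_2 (D'.b t).1 (D'.b t).2 (Ed_0 hGA D' ℓ t) (Ed_2 hGA D' ℓ t)
  have b3 : ∀ t, |Ed κ a h t - Ed κ ℓ h t| ≤ 2 := fun t =>
    abs_sub_2 (Ed_0 hGA D a t) (Ed_2 hGA D a t) (Ed_0 hGA D ℓ t) (Ed_2 hGA D ℓ t)
  have b3' : ∀ t, |Ed κ' a h' t - Ed κ' ℓ h' t| ≤ 2 := fun t =>
    abs_sub_2 (Ed_0 hGA D' a t) (Ed_2 hGA D' a t) (Ed_0 hGA D' ℓ t) (Ed_2 hGA D' ℓ t)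
  have I1 : Integrable fun y : Pl => cut z L₂ y * ((h (pr s y) - Ed κ a h (pr s y)) *
      (h' (pr s' y) - Ed κ' ℓ h' (pr s' y))) :=
    int_prod (X := fun t => h t - Ed κ a h t) (Y := fun t => h' t - Ed κ' ℓ h' t) hPT hL
      (D.m.sub (mE a)) (D'.m.sub (mE' ℓ)) b1 b2'
  have I2 : Integrable fun y : Pl => cut z L₂ y * ((h' (pr s' y) - Ed κ' a h' (pr s' y)) *
      (Ed κ a h (pr s y) - Ed κ ℓ h (pr s y))) :=
    int_prod (X := fun t => h' t - Ed κ' a h' t) (Y := fun t => Ed κ a h t - Ed κ ℓ h t) hPT hL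
      (D'.m.sub (mE' a)) ((mE a).sub (mE ℓ)) b1' b3
  have I3 : Integrable fun y : Pl => cut z L₂ y * ((Ed κ a h (pr s y) - Ed κ ℓ h (pr s y)) *
      (Ed κ' a h' (pr s' y) - Ed κ' ℓ h' (pr s' y))) :=
    int_prod (X := fun t => Ed κ a h t - Ed κ ℓ h t) (Y := fun t => Ed κ' a h' t - Ed κ' ℓ h' t)
      hPT hL ((mE a).sub (mE ℓ)) ((mE' a).sub (mE' ℓ)) b3 b3'
  have hsplit : ∫ y : Pl, cut z L₂ y * ((h (pr s y) - Ed κ ℓ h (pr s y)) *
        (h' (pr s' y) - Ed κ' ℓ h' (pr s' y))) =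
      (∫ y : Pl, cut z L₂ y * ((h (pr s y) - Ed κ a h (pr s y)) *
        (h' (pr s' y) - Ed κ' ℓ h' (pr s' y)))) +
      (∫ y : Pl, cut z L₂ y * ((h' (pr s' y) - Ed κ' a h' (pr s' y)) *
        (Ed κ a h (pr s y) - Ed κ ℓ h (pr s y)))) +
      ∫ y : Pl, cut z L₂ y * ((Ed κ a h (pr s y) - Ed κ ℓ h (pr s y)) *
        (Ed κ' a h' (pr s' y) - Ed κ' ℓ h' (pr s' y))) := by
    have I12 : Integrable fun y : Pl => cut z L₂ y * ((h (pr s y) - Ed κ a h (pr s y)) *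
        (h' (pr s' y) - Ed κ' ℓ h' (pr s' y))) +
        cut z L₂ y * ((h' (pr s' y) - Ed κ' a h' (pr s' y)) *
        (Ed κ a h (pr s y) - Ed κ ℓ h (pr s y))) := I1.add I2
    rw [← integral_add I1 I2, ← integral_add I12 I3]
    refine integral_congr_ae (ae_of_all _ fun y => ?_)
    simp only
    ring
  have hV := Vv_0 (z := z) (L₂ := L₂) D
  have hV' := Vv_0 (z := z) (L₂ := L₂) D'
  have e1 := far (z := z) hSMA D D'.hs hL (a := a) (K := fun t => h' t - Ed κ' ℓ h' t)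
    (D'.m.sub (mE' ℓ)) b2' h2a'
  have e2 := far (z := z) (s' := s) hSMA D' D.hs hL (a := a)
    (K := fun t => Ed κ a h t - Ed κ ℓ h t) ((mE a).sub (mE ℓ)) b3
    (by rw [abs_sub_comm]; exact h2a')
  rw [abs_sub_comm s' s] at e2
  have e3 := prod_half (s := s) (s' := s') (z := z) (X := fun t => Ed κ a h t - Ed κ ℓ h t)
    (Y := fun t => Ed κ' a h' t - Ed κ' ℓ h' t) hPT hL ((mE a).sub (mE ℓ))
    ((mE' a).sub (mE' ℓ)) b3 b3'
  have e1' : 100 * ((2 : ℝ) ^ a / |s - s'|) * Vv s z L₂ h ≤ 100 * (2 : ℝ) ^ k * Vv s z L₂ h :=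
    mul_le_mul_of_nonneg_right (mul_le_mul_of_nonneg_left hq (by norm_num)) hV
  have e2' : 100 * ((2 : ℝ) ^ a / |s - s'|) * Vv s' z L₂ h' ≤
      100 * (2 : ℝ) ^ k * Vv s' z L₂ h' :=
    mul_le_mul_of_nonneg_right (mul_le_mul_of_nonneg_left hq (by norm_num)) hV'
  rw [hsplit]
  have e3' : ∫ y : Pl, cut z L₂ y * ((Ed κ a h (pr s y) - Ed κ ℓ h (pr s y)) *
        (Ed κ' a h' (pr s' y) - Ed κ' ℓ h' (pr s' y))) ≤
      1 / 2 * (ev s κ z L₂ h a ℓ + ev s' κ' z L₂ h' a ℓ) := e3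
  linarith

end

theorem Aa_comm (s s' : ℝ) : Aa s s' = Aa s' s := by
  unfold Aa
  rw [abs_sub_comm]

/-- sum of a constant over a filtered range -/
theorem sum_ite_card (N : ℕ) (p : ℕ → Prop) [DecidablePred p] (c : ℝ) :
    ∑ j' ∈ Finset.range N, (if p j' then c else 0) =
      (((Finset.range N).filter p).card : ℝ) * c := by
  rw [← Finset.sum_filter, Finset.sum_const, nsmul_eq_mul]

open Classical in
theorem hVAR (hPT : StPT) (_hGR : StGR) (hGA : StGA) (hSMA : StSMA) (hSMB : StSMB) : StVAR := by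
  refine ⟨332, by norm_num, ?_⟩
  intro N s κ h z k ℓ L₂ i₀ v₀ v₁ W hdat hL hi₀ hkl hNℓ hℓL hNk hℓ2 hkL hv hcnt hW0
  have D : ∀ j < N, Da (s j) (κ j) (h j) := fun j hj =>
    ⟨(hdat j hj).1, (hdat j hj).2.1, (hdat j hj).2.2.1, (hdat j hj).2.2.2.1⟩
  -- abbreviations
  set V : ℕ → ℝ := fun j => Vv (s j) z L₂ (h j) with hV
  set Q : ℕ → ℤ → ℝ := fun j b => Qv (s j) (κ j) z L₂ (h j) b ℓ with hQ
  set e : ℕ → ℤ → ℝ := fun j b => ev (s j) (κ j) z L₂ (h j) b ℓ with he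
  have V0 : ∀ j < N, 0 ≤ V j := fun j hj => Vv_0 (D j hj)
  have Q0 : ∀ j b, 0 ≤ Q j b := fun j b => Qv_0 b ℓ
  have e0 : ∀ j b, 0 ≤ e j b := fun j b =>
    integral_nonneg fun y => mul_nonneg (cut_nonneg z L₂ y) (sq_nonneg _)
  set H : ℕ → ℝ → ℝ := fun j t => h j t - Ed (κ j) ℓ (h j) t with hH
  have Hm : ∀ j < N, Measurable (H j) := fun j hj => (D j hj).m.sub (Ed_m hGA (D j hj) ℓ)
  have H2 : ∀ j < N, ∀ t, |H j t| ≤ 2 := fun j hj t =>
    abs_sub_2 ((D j hj).b t).1 ((D j hj).b t).2 (Ed_0 hGA (D j hj) ℓ t) (Ed_2 hGA (D j hj) ℓ t)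
  set I : ℕ → ℕ → ℝ := fun j j' => ∫ y : Pl, cut z L₂ y * (H j (pr (s j) y) * H j' (pr (s j') y))
    with hI
  have Iint : ∀ j < N, ∀ j' < N,
      Integrable fun y : Pl => cut z L₂ y * (H j (pr (s j) y) * H j' (pr (s j') y)) :=
    fun j hj j' hj' => int_prod hPT hL (Hm j hj) (Hm j' hj') (H2 j hj) (H2 j' hj')
  -- step A
  have stepA : ∫⁻ y : Pl, ENNReal.ofReal (cut z L₂ y * (GG N s h y - PG N s κ ℓ h y) ^ 2) =
      ENNReal.ofReal (∑ j ∈ Finset.range N, ∑ j' ∈ Finset.range N, I j j') := by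
    have hpt : ∀ y : Pl, cut z L₂ y * (GG N s h y - PG N s κ ℓ h y) ^ 2 =
        ∑ j ∈ Finset.range N, ∑ j' ∈ Finset.range N,
          cut z L₂ y * (H j (pr (s j) y) * H j' (pr (s j') y)) := by
      intro y
      have h1 : GG N s h y - PG N s κ ℓ h y = ∑ j ∈ Finset.range N, H j (pr (s j) y) := by
        unfold GG PG
        rw [← Finset.sum_sub_distrib]
      rw [h1, pow_two, Finset.sum_mul_sum, Finset.mul_sum]
      refine Finset.sum_congr rfl fun j _ => ?_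
      rw [Finset.mul_sum]
    have hint : Integrable fun y : Pl => cut z L₂ y * (GG N s h y - PG N s κ ℓ h y) ^ 2 := by
      have h2 : Integrable fun y : Pl => ∑ j ∈ Finset.range N, ∑ j' ∈ Finset.range N,
          cut z L₂ y * (H j (pr (s j) y) * H j' (pr (s j') y)) :=
        integrable_finsetSum _ fun j hj => integrable_finsetSum _ fun j' hj' =>
          Iint j (Finset.mem_range.1 hj) j' (Finset.mem_range.1 hj')
      exact h2.congr (ae_of_all _ fun y => (hpt y).symm)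
    rw [← ofReal_integral_eq_lintegral_ofReal hint
      (ae_of_all _ fun y => mul_nonneg (cut_nonneg z L₂ y) (sq_nonneg _))]
    congr 1
    rw [integral_congr_ae (ae_of_all _ hpt), integral_finsetSum]
    · refine Finset.sum_congr rfl fun j hj => ?_
      rw [integral_finsetSum]
      intro j' hj'
      exact Iint j (Finset.mem_range.1 hj) j' (Finset.mem_range.1 hj')
    · intro j hj
      exact integrable_finsetSum _ fun j' hj' =>
        Iint j (Finset.mem_range.1 hj) j' (Finset.mem_range.1 hj')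
  -- the bounds for the pairs
  set T1 : ℕ → ℝ := fun j => 100 * ((2 : ℝ) ^ ℓ * (2 : ℝ) ^ i₀) * V j with hT1
  set T2 : ℕ → ℕ → ℝ := fun j j' => if |s j - s j'| = 0 then 16 * L₂ * V j else 0 with hT2
  set T3 : ℕ → ℝ := fun j => 100 * (2 : ℝ) ^ k * V j with hT3
  set T4 : ℕ → ℕ → ℝ := fun j j' => if 0 < |s j - s j'| ∧ |s j - s j'| ≤ (2 : ℝ) ^ (-(i₀ : ℤ))
    then e j (k - (Aa (s j) (s j') : ℤ)) else 0 with hT4
  have T1n : ∀ j < N, 0 ≤ T1 j := fun j hj => by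
    have := V0 j hj
    simp only [hT1]
    positivity
  have T2n : ∀ j < N, ∀ j', 0 ≤ T2 j j' := fun j hj j' => by
    have := V0 j hj
    simp only [hT2]
    split_ifs
    · positivity
    · exact le_rfl
  have T3n : ∀ j < N, 0 ≤ T3 j := fun j hj => by
    have := V0 j hj
    simp only [hT3]
    positivity
  have T4n : ∀ j j', 0 ≤ T4 j j' := fun j j' => by
    simp only [hT4]
    split_ifs
    · exact e0 _ _
    · exact le_rfl
  have pair : ∀ j < N, ∀ j' < N, I j j' ≤ T1 j + 1 / 2 * (T2 j j' + T2 j' j) + (T3 j + T3 j') +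
      1 / 2 * (T4 j j' + T4 j' j) := by
    intro j hj j' hj'
    have n1 := T1n j hj
    have n2 := T2n j hj j'
    have n2' := T2n j' hj' j
    have n3 := T3n j hj
    have n3' := T3n j' hj'
    have n4 := T4n j j'
    have n4' := T4n j' j
    rcases (abs_nonneg (s j - s j')).eq_or_lt with h0 | h0
    · -- equal slopes
      have h1 : T2 j j' = 16 * L₂ * V j := by
        simp only [hT2]
        rw [if_pos h0.symm]
      have h2 : T2 j' j = 16 * L₂ * V j' := by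
        simp only [hT2]
        rw [abs_sub_comm (s j') (s j), if_pos h0.symm]
      have h3 := prod_half (s := s j) (s' := s j') (z := z) hPT hL (Hm j hj) (Hm j' hj')
        (H2 j hj) (H2 j' hj')
      have h4 := hh_le (z := z) hPT hGA hSMB (D j hj) hL hℓL
      have h5 := hh_le (z := z) hPT hGA hSMB (D j' hj') hL hℓL
      have h6 : I j j' ≤ 1 / 2 * (16 * L₂ * V j + 16 * L₂ * V j') :=
        h3.trans (mul_le_mul_of_nonneg_left (add_le_add h4 h5) (by norm_num))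
      rw [h1, h2]
      linarith
    · rcases le_or_gt |s j - s j'| ((2 : ℝ) ^ (-(i₀ : ℤ))) with h1 | h1
      · -- near slopes
        have h2 : T4 j j' = e j (k - (Aa (s j) (s j') : ℤ)) := by
          simp only [hT4]
          rw [if_pos ⟨h0, h1⟩]
        have h3 : T4 j' j = e j' (k - (Aa (s j) (s j') : ℤ)) := by
          simp only [hT4]
          rw [abs_sub_comm (s j') (s j), if_pos ⟨h0, h1⟩, Aa_comm (s j') (s j)]
        have h4 : I j j' ≤ T3 j + T3 j' + 1 / 2 * (e j (k - (Aa (s j) (s j') : ℤ)) +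
            e j' (k - (Aa (s j) (s j') : ℤ))) :=
          near (z := z) (ℓ := ℓ) hPT hGA hSMA (D j hj) (D j' hj') hL hkL h0 h1
        rw [h2, h3]
        linarith
      · -- separated slopes
        have h2 : (2 : ℝ) ^ (-(2 * (i₀ : ℤ))) ≤ (2 : ℝ) ^ (-(i₀ : ℤ)) :=
          zpow_le_zpow_right₀ (by norm_num) (by omega)
        have h3 : (2 : ℝ) ^ ℓ ≤ L₂ * |s j - s j'| := by
          refine hℓ2.trans ?_
          rw [mul_comm]
          exact mul_le_mul_of_nonneg_left (h2.trans h1.le) hL.le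
        have h4 := far (z := z) hSMA (D j hj) (D j' hj').hs hL (Hm j' hj') (H2 j' hj') h3
        have h5 : (2 : ℝ) ^ ℓ / |s j - s j'| ≤ (2 : ℝ) ^ ℓ * (2 : ℝ) ^ i₀ := by
          rw [div_le_iff₀ h0, mul_assoc]
          have h6 : (1 : ℝ) ≤ (2 : ℝ) ^ i₀ * |s j - s j'| := by
            have h7 : (2 : ℝ) ^ i₀ * (2 : ℝ) ^ (-(i₀ : ℤ)) = 1 := by
              rw [zpow_neg, zpow_natCast]
              exact mul_inv_cancel₀ (by positivity)
            rw [← h7]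
            exact mul_le_mul_of_nonneg_left h1.le (by positivity)
          exact le_mul_of_one_le_right (by positivity) h6
        have h6 : I j j' ≤ T1 j := by
          refine h4.trans ?_
          exact mul_le_mul_of_nonneg_right (mul_le_mul_of_nonneg_left h5 (by norm_num)) (V0 j hj)
        linarith
  -- the sums over the partners
  have hN : ((Finset.range N).card : ℝ) = N := by rw [Finset.card_range]
  have S1 : ∀ j < N, ∑ _j' ∈ Finset.range N, T1 j ≤ 100 * L₂ * V j := by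
    intro j hj
    rw [Finset.sum_const, nsmul_eq_mul, hN]
    have h1 : (N : ℝ) * ((2 : ℝ) ^ ℓ * (2 : ℝ) ^ i₀) ≤ L₂ := by
      calc (N : ℝ) * ((2 : ℝ) ^ ℓ * (2 : ℝ) ^ i₀) = ((N : ℝ) * (2 : ℝ) ^ ℓ) * (2 : ℝ) ^ i₀ := by
            ring
        _ ≤ ((2 : ℝ) ^ (-(2 * (i₀ : ℤ))) * L₂) * (2 : ℝ) ^ i₀ :=
            mul_le_mul_of_nonneg_right hNℓ (by positivity)
        _ = (2 : ℝ) ^ (-(i₀ : ℤ)) * L₂ := by
            have : (2 : ℝ) ^ (-(2 * (i₀ : ℤ))) * (2 : ℝ) ^ i₀ = (2 : ℝ) ^ (-(i₀ : ℤ)) := by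
              rw [← zpow_natCast, ← zpow_add₀ (by norm_num)]
              congr 1
              ring
            rw [← this]
            ring
        _ ≤ 1 * L₂ := by
            refine mul_le_mul_of_nonneg_right ?_ hL.le
            exact zpow_le_one_of_nonpos₀ (by norm_num) (by omega)
        _ = L₂ := one_mul _
    calc (N : ℝ) * T1 j = 100 * ((N : ℝ) * ((2 : ℝ) ^ ℓ * (2 : ℝ) ^ i₀)) * V j := by
          simp only [hT1]
          ring
      _ ≤ 100 * L₂ * V j :=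
          mul_le_mul_of_nonneg_right (mul_le_mul_of_nonneg_left h1 (by norm_num)) (V0 j hj)
  have S3 : ∀ j < N, (N : ℝ) * T3 j ≤ 100 * L₂ * V j := by
    intro j hj
    calc (N : ℝ) * T3 j = 100 * ((N : ℝ) * (2 : ℝ) ^ k) * V j := by
          simp only [hT3]
          ring
      _ ≤ 100 * L₂ * V j :=
          mul_le_mul_of_nonneg_right (mul_le_mul_of_nonneg_left hNk (by norm_num)) (V0 j hj)
  have cnt0 : ∀ j < N, ∀ v : ℕ, v₀ ≤ v → v ≤ v₁ + 1 → ∀ p : ℕ → Prop,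
      (∀ j' < N, p j' → |s j - s j'| ≤ (2 : ℝ) ^ (-(W j v : ℤ))) →
      (((Finset.range N).filter p).card : ℝ) ≤ (2 : ℝ) ^ v := by
    intro j hj v hv1 hv2 p hp
    refine le_trans ?_ (hcnt j hj v hv1 hv2)
    rw [ncard_eq]
    have : (Finset.range N).filter p ⊆
        (Finset.range N).filter fun j' => |s j - s j'| ≤ (2 : ℝ) ^ (-(W j v : ℤ)) := by
      intro j' hj'
      rw [Finset.mem_filter] at hj' ⊢
      exact ⟨hj'.1, hp j' (Finset.mem_range.1 hj'.1) hj'.2⟩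
    exact_mod_cast Finset.card_le_card this
  have S2 : ∀ j < N, ∑ j' ∈ Finset.range N, T2 j j' ≤ (2 : ℝ) ^ v₀ * (16 * L₂ * V j) := by
    intro j hj
    simp only [hT2]
    rw [sum_ite_card]
    refine mul_le_mul_of_nonneg_right (cnt0 j hj v₀ le_rfl hv _ fun j' _ h1 => ?_) (by
      have := V0 j hj
      positivity)
    rw [h1]
    positivity
  have S4 : ∀ j < N, ∑ j' ∈ Finset.range N, T4 j j' ≤ (2 : ℝ) ^ v₀ * (16 * L₂ * V j) +
      ∑ v ∈ Finset.Icc v₀ v₁, (if i₀ ≤ W j v then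
        8 * L₂ * ((2 : ℝ) ^ v * Q j (k - (W j v : ℤ))) else 0) := by
    intro j hj
    have Vj := V0 j hj
    have hpt : ∀ j' ∈ Finset.range N, T4 j j' ≤
        (if |s j - s j'| ≤ (2 : ℝ) ^ (-(W j v₀ : ℤ)) then 16 * L₂ * V j else 0) +
        ∑ v ∈ Finset.Icc v₀ v₁, (if i₀ ≤ W j v then
          (if |s j - s j'| ≤ (2 : ℝ) ^ (-(W j (v + 1) : ℤ)) then
            4 * L₂ * Q j (k - (W j v : ℤ)) else 0) else 0) := by
      intro j' _
      have hterm : ∀ v ∈ Finset.Icc v₀ v₁, 0 ≤ (if i₀ ≤ W j v then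
          (if |s j - s j'| ≤ (2 : ℝ) ^ (-(W j (v + 1) : ℤ)) then
            4 * L₂ * Q j (k - (W j v : ℤ)) else 0) else 0) := by
        intro v _
        have := Q0 j (k - (W j v : ℤ))
        split_ifs <;> positivity
      have hsum0 := Finset.sum_nonneg hterm
      have hfirst : 0 ≤ (if |s j - s j'| ≤ (2 : ℝ) ^ (-(W j v₀ : ℤ)) then 16 * L₂ * V j else 0) := by
        split_ifs <;> positivity
      by_cases hc : 0 < |s j - s j'| ∧ |s j - s j'| ≤ (2 : ℝ) ^ (-(i₀ : ℤ))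
      swap
      · have : T4 j j' = 0 := by
          simp only [hT4]
          rw [if_neg hc]
        rw [this]
        linarith
      have h4 : T4 j j' = e j (k - (Aa (s j) (s j') : ℤ)) := by
        simp only [hT4]
        rw [if_pos hc]
      obtain ⟨hA1, hA2, hA3⟩ := Aa_prop hc.1 hc.2
      set A := Aa (s j) (s j') with hA
      rw [h4]
      by_cases hex : ((Finset.Icc v₀ v₁).filter fun v => A ≤ W j v).Nonempty
      · -- the largest such index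
        set v := ((Finset.Icc v₀ v₁).filter fun v => A ≤ W j v).max' hex with hvdef
        have hvm := Finset.max'_mem _ hex
        rw [← hvdef, Finset.mem_filter, Finset.mem_Icc] at hvm
        obtain ⟨⟨hv1, hv2⟩, hv3⟩ := hvm
        have hnext : W j (v + 1) < A := by
          by_contra hcon
          push Not at hcon
          rcases hv2.eq_or_lt with h5 | h5
          · rw [h5, hW0 j hj] at hcon
            omega
          · have h6 : v + 1 ∈ (Finset.Icc v₀ v₁).filter fun v => A ≤ W j v := by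
              rw [Finset.mem_filter, Finset.mem_Icc]
              exact ⟨⟨by omega, by omega⟩, hcon⟩
            have h7 := Finset.le_max' _ _ h6
            rw [← hvdef] at h7
            omega
        have hclose : |s j - s j'| ≤ (2 : ℝ) ^ (-(W j (v + 1) : ℤ)) := by
          refine hA2.le.trans ?_
          exact zpow_le_zpow_right₀ (by norm_num) (by omega)
        have h5 : e j (k - (A : ℤ)) ≤ 4 * L₂ * Q j (k - (W j v : ℤ)) :=
          ev_le hPT hGA hSMB (D j hj) hL (by omega) (by omega) hℓL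
        have h6 := Finset.single_le_sum hterm (Finset.mem_Icc.2 ⟨hv1, hv2⟩)
        rw [if_pos (hA3.trans hv3), if_pos hclose] at h6
        linarith
      · have hclose : |s j - s j'| ≤ (2 : ℝ) ^ (-(W j v₀ : ℤ)) := by
          have hW : W j v₀ < A := by
            rcases Nat.lt_or_ge v₁ v₀ with h5 | h5
            · have h6 : v₀ = v₁ + 1 := by omega
              rw [h6, hW0 j hj]
              omega
            · by_contra hcon
              push Not at hcon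
              exact hex ⟨v₀, by
                rw [Finset.mem_filter, Finset.mem_Icc]
                exact ⟨⟨le_rfl, h5⟩, hcon⟩⟩
          refine hA2.le.trans ?_
          exact zpow_le_zpow_right₀ (by norm_num) (by omega)
        have h5 : e j (k - (A : ℤ)) ≤ 16 * L₂ * V j :=
          ev_le' hPT hGA hSMB (D j hj) hL (by omega) hℓL
        rw [if_pos hclose]
        linarith
    refine (Finset.sum_le_sum hpt).trans ?_
    rw [Finset.sum_add_distrib]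
    refine add_le_add ?_ ?_
    · rw [sum_ite_card]
      exact mul_le_mul_of_nonneg_right (cnt0 j hj v₀ le_rfl hv _ fun j' _ h1 => h1)
        (by positivity)
    · rw [Finset.sum_comm]
      refine Finset.sum_le_sum fun v hvI => ?_
      rw [Finset.mem_Icc] at hvI
      by_cases h5 : i₀ ≤ W j v
      · simp only [if_pos h5]
        rw [sum_ite_card]
        have h6 := cnt0 j hj (v + 1) (by omega) (by omega) _
          (fun j' _ (h1 : |s j - s j'| ≤ (2 : ℝ) ^ (-(W j (v + 1) : ℤ))) => h1)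
        have h7 := Q0 j (k - (W j v : ℤ))
        calc (((Finset.range N).filter fun j' =>
              |s j - s j'| ≤ (2 : ℝ) ^ (-(W j (v + 1) : ℤ))).card : ℝ) *
                (4 * L₂ * Q j (k - (W j v : ℤ)))
            ≤ (2 : ℝ) ^ (v + 1) * (4 * L₂ * Q j (k - (W j v : ℤ))) :=
              mul_le_mul_of_nonneg_right h6 (by positivity)
          _ = 8 * L₂ * ((2 : ℝ) ^ v * Q j (k - (W j v : ℤ))) := by
              rw [pow_succ]
              ring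
      · simp only [if_neg h5]
        rw [Finset.sum_const_zero]
  -- the total
  have total : ∑ j ∈ Finset.range N, ∑ j' ∈ Finset.range N, I j j' ≤
      ∑ j ∈ Finset.range N, (332 * (2 : ℝ) ^ v₀ * L₂ * V j +
        ∑ v ∈ Finset.Icc v₀ v₁, (if i₀ ≤ W j v then
          8 * L₂ * ((2 : ℝ) ^ v * Q j (k - (W j v : ℤ))) else 0)) := by
    have h1 : ∑ j ∈ Finset.range N, ∑ j' ∈ Finset.range N, I j j' ≤
        ∑ j ∈ Finset.range N, ∑ j' ∈ Finset.range N, (T1 j + 1 / 2 * (T2 j j' + T2 j' j) +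
          (T3 j + T3 j') + 1 / 2 * (T4 j j' + T4 j' j)) :=
      Finset.sum_le_sum fun j hj => Finset.sum_le_sum fun j' hj' =>
        pair j (Finset.mem_range.1 hj) j' (Finset.mem_range.1 hj')
    have h2 : ∑ j ∈ Finset.range N, ∑ j' ∈ Finset.range N, (T1 j + 1 / 2 * (T2 j j' + T2 j' j) +
          (T3 j + T3 j') + 1 / 2 * (T4 j j' + T4 j' j)) =
        ∑ j ∈ Finset.range N, (∑ _j' ∈ Finset.range N, T1 j + ∑ j' ∈ Finset.range N, T2 j j' +
          2 * ((N : ℝ) * T3 j) + ∑ j' ∈ Finset.range N, T4 j j') := by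
      have c2 : ∑ j ∈ Finset.range N, ∑ j' ∈ Finset.range N, T2 j' j =
          ∑ j ∈ Finset.range N, ∑ j' ∈ Finset.range N, T2 j j' := Finset.sum_comm
      have c4 : ∑ j ∈ Finset.range N, ∑ j' ∈ Finset.range N, T4 j' j =
          ∑ j ∈ Finset.range N, ∑ j' ∈ Finset.range N, T4 j j' := Finset.sum_comm
      have c3 : ∑ _j ∈ Finset.range N, ∑ j' ∈ Finset.range N, T3 j' =
          ∑ j ∈ Finset.range N, (N : ℝ) * T3 j := by
        rw [Finset.sum_comm]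
        refine Finset.sum_congr rfl fun j _ => ?_
        rw [Finset.sum_const, nsmul_eq_mul, hN]
      have c3' : ∑ j ∈ Finset.range N, ∑ _j' ∈ Finset.range N, T3 j =
          ∑ j ∈ Finset.range N, (N : ℝ) * T3 j := by
        refine Finset.sum_congr rfl fun j _ => ?_
        rw [Finset.sum_const, nsmul_eq_mul, hN]
      simp only [Finset.sum_add_distrib, ← Finset.mul_sum, mul_add]
      simp only [Finset.sum_add_distrib, ← Finset.mul_sum, mul_add] at c2 c4 c3 c3' ⊢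
      rw [c2, c4, c3, c3']
      ring
    rw [h2] at h1
    refine h1.trans (Finset.sum_le_sum fun j hj => ?_)
    have hj := Finset.mem_range.1 hj
    have a1 := S1 j hj
    have a2 := S2 j hj
    have a3 := S3 j hj
    have a4 := S4 j hj
    have hv0 : (1 : ℝ) ≤ (2 : ℝ) ^ v₀ := one_le_pow₀ (by norm_num)
    have a5 : 300 * L₂ * V j ≤ (2 : ℝ) ^ v₀ * (300 * L₂ * V j) :=
      le_mul_of_one_le_left (by have := V0 j hj; positivity) hv0
    have a6 : (332 : ℝ) * (2 : ℝ) ^ v₀ * L₂ * V j = (2 : ℝ) ^ v₀ * (300 * L₂ * V j) +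
        (2 : ℝ) ^ v₀ * (16 * L₂ * V j) + (2 : ℝ) ^ v₀ * (16 * L₂ * V j) := by ring
    rw [a6]
    linarith
  rw [stepA]
  refine (ENNReal.ofReal_le_ofReal total).trans ?_
  rw [ENNReal.ofReal_sum_of_nonneg (fun j hj => by
    have := V0 j (Finset.mem_range.1 hj)
    refine add_nonneg (by positivity) (Finset.sum_nonneg fun v _ => ?_)
    have := Q0 j (k - (W j v : ℤ))
    split_ifs <;> positivity)]
  rw [Finset.mul_sum, Finset.mul_sum, ← Finset.sum_add_distrib]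
  refine Finset.sum_le_sum fun j hj => ?_
  have hj := Finset.mem_range.1 hj
  refine ENNReal.ofReal_add_le.trans (add_le_add ?_ ?_)
  · rw [lVv (D j hj), ← ENNReal.ofReal_mul (by positivity)]
  · rw [ENNReal.ofReal_sum_of_nonneg (fun v _ => by
      have := Q0 j (k - (W j v : ℤ))
      split_ifs <;> positivity), Finset.mul_sum]
    refine Finset.sum_le_sum fun v _ => ?_
    by_cases h5 : i₀ ≤ W j v
    · rw [if_pos h5, if_pos h5, lEd hGA (D j hj), ← ENNReal.ofReal_mul (by positivity),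
        ← ENNReal.ofReal_mul (by positivity)]
      refine ENNReal.ofReal_le_ofReal ?_
      have h6 := Q0 j (k - (W j v : ℤ))
      have h7 : 0 ≤ L₂ * ((2 : ℝ) ^ v * Q j (k - (W j v : ℤ))) := by positivity
      change 8 * L₂ * ((2 : ℝ) ^ v * Q j (k - (W j v : ℤ))) ≤
        332 * L₂ * ((2 : ℝ) ^ v * Q j (k - (W j v : ℤ)))
      nlinarith
    · rw [if_neg h5, if_neg h5]
      simp

end Pool.Agent.Helper65.P3
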